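import Pool.Agent.Lib.MP_848d44_nt.G.TwoSided

/-!
# Montgomery's conjecture for primes in progressions: deviations of both signs of size
`(x / q) ^ (1 / 2)` for every modulus `q` between `x ^ (4 / 5 + ε)` and `x / (log x) ^ 3`

The sums over one class are those of the frozen statements: for coprime `a < q`, the sum of `Λ(n)`
over `1 ≤ n ≤ x` with `n ≡ a mod q`. The sum over all `n ≤ x` coprime to `q`, divided by `φ(q)`,
is the mean of these sums over the reduced classes.
-/

set_option autoImplicit false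

namespace Pool.Agent.Results.MP_848d44_nt.TwoSided

theorem result :
    ∀ ε : ℝ, 0 < ε → ∃ c : ℝ, 0 < c ∧ ∃ x₀ : ℝ, ∀ x : ℝ, x₀ ≤ x →
      ∀ q : ℕ, x ^ ((4 : ℝ) / 5 + ε) ≤ q → (q : ℝ) ≤ x / Real.log x ^ 3 →
      ((q : ℝ) / ((x / q) ^ ((3 : ℝ) / 2) * x ^ ε) ≤
        (Finset.card (Finset.filter (fun a => Nat.Coprime a q ∧
          (∑ n ∈ Finset.filter (fun n => Nat.Coprime n q) (Finset.Icc 1 ⌊x⌋₊),
              ArithmeticFunction.vonMangoldt n) / (Nat.totient q : ℝ) + c * Real.sqrt (x / q) ≤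
            ∑ n ∈ Finset.filter (fun n => n % q = a) (Finset.Icc 1 ⌊x⌋₊),
              ArithmeticFunction.vonMangoldt n) (Finset.range q)) : ℝ)) ∧
      ((q : ℝ) / ((x / q) ^ ((3 : ℝ) / 2) * x ^ ε) ≤
        (Finset.card (Finset.filter (fun a => Nat.Coprime a q ∧
          ∑ n ∈ Finset.filter (fun n => n % q = a) (Finset.Icc 1 ⌊x⌋₊),
              ArithmeticFunction.vonMangoldt n ≤
            (∑ n ∈ Finset.filter (fun n => Nat.Coprime n q) (Finset.Icc 1 ⌊x⌋₊),
              ArithmeticFunction.vonMangoldt n) / (Nat.totient q : ℝ) - c * Real.sqrt (x / q))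
            (Finset.range q)) : ℝ)) := by
  intro ε hε
  exact Pool.Agent.M848.two_sided ε hε

end Pool.Agent.Results.MP_848d44_nt.TwoSided
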